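import Pool.Agent.H16.ZW.Targets

/-!
# Zariski dense orbits: linear independence of the characters (module LNF)
-/

open scoped Classical

set_option linter.unusedSectionVars false

namespace Pool.Agent.H77.ZW

open Pool.Agent.H16.ZW

variable {K : Type} [Field K] [CharZero K]

theorem ii_single (hEE : T_EE) (τ c : K) :
    ii K (.single τ (Polynomial.C c)) = PowerSeries.C c * ee τ := by
  obtain ⟨-, -, -, -, h1, h2, -, -⟩ := hEE K
  rw [← h1, ← h2, ← map_mul]
  congr 1
  rw [AddMonoidAlgebra.single_mul_single, zero_add, mul_one]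

theorem deriv_C_mul (c : K) (f : PowerSeries K) :
    PowerSeries.derivative K (PowerSeries.C c * f) =
      PowerSeries.C c * PowerSeries.derivative K f := by
  rw [← PowerSeries.smul_eq_C_mul, ← PowerSeries.smul_eq_C_mul]
  exact (PowerSeries.derivative K).map_smul c f

theorem lnf (hEE : T_EE) (hKO : T_KO) (hEXQ : T_EXQ) : T_LNF := by
  intro K _ _ m X T hX hT hder hX0 hT0 S r hsum
  have hT00 : T 0 = 0 := by
    have := hT 0 0
    rw [add_zero] at this
    exact (left_eq_add.1 this)
  have hTsub : ∀ a b, T (a - b) = T a - T b := by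
    intro a b
    have := hT (a - b) b
    rw [sub_add_cancel] at this
    rw [this, add_sub_cancel_right]
  let s : Setoid (Fin m → ℤ) :=
    { r := fun a b => ∃ τ : K, T a - T b = .single 0 (Polynomial.C τ)
      iseqv :=
        { refl := fun a => ⟨0, by rw [sub_self, Polynomial.C_0, AddMonoidAlgebra.single_zero]⟩
          symm := by
            rintro a b ⟨τ, h⟩
            refine ⟨-τ, ?_⟩
            rw [Polynomial.C_neg, AddMonoidAlgebra.single_neg, ← h, neg_sub]
          trans := by
            rintro a b c ⟨τ, h⟩ ⟨τ', h'⟩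
            refine ⟨τ + τ', ?_⟩
            rw [Polynomial.C_add, AddMonoidAlgebra.single_add, ← h, ← h', sub_add_sub_cancel] } }
  let rep : (Fin m → ℤ) → (Fin m → ℤ) := fun a => (Quotient.mk s a).out
  have hrep : ∀ a, ∃ τ : K, T a - T (rep a) = .single 0 (Polynomial.C τ) := fun a =>
    Quotient.exact (Quotient.out_eq (Quotient.mk s a)).symm
  choose τ hτ using hrep
  let x : (Fin m → ℤ) → K := fun a => PowerSeries.constantCoeff (X (a - rep a))
  have hXe : ∀ a, X (a - rep a) = PowerSeries.C (x a) * ee (τ a) := by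
    intro a
    obtain ⟨-, -, -, -, h1, h2, h3, h4⟩ := hEE K
    obtain ⟨Y, -, huni⟩ := hEXQ K (PowerSeries.C (τ a)) (x a)
    have e1 := huni (X (a - rep a)) ⟨by
      rw [hder, hTsub, hτ, h2], rfl⟩
    have e2 := huni (PowerSeries.C (x a) * ee (τ a)) ⟨by
      rw [deriv_C_mul, h3]; ring, by
      rw [map_mul, h4, mul_one, PowerSeries.constantCoeff_C]⟩
    rw [e1, e2]
  let F : (Fin m → ℤ) → EE K := fun ρ =>
    ∑ a ∈ S.filter (fun a => rep a = ρ), .single (τ a) (Polynomial.C (r a * x a))
  have hF : ∀ ρ ∈ S.image rep, F ρ = 0 := by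
    refine hKO K _ (S.image rep) X T F (fun i _ h => hX0 i (by rw [h, map_zero]))
      (fun i _ => hder i) ?_ ?_
    · intro i hi j hj hij t ht
      obtain ⟨a, -, rfl⟩ := Finset.mem_image.1 hi
      obtain ⟨b, -, rfl⟩ := Finset.mem_image.1 hj
      apply hij
      have h1 : Quotient.mk s (rep a) = Quotient.mk s (rep b) := Quotient.sound ⟨t, ht⟩
      have h2 : Quotient.mk s (rep a) = Quotient.mk s a := Quotient.out_eq _
      have h3 : Quotient.mk s (rep b) = Quotient.mk s b := Quotient.out_eq _
      rw [h2, h3] at h1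
      show (Quotient.mk s a).out = (Quotient.mk s b).out
      rw [h1]
    · rw [← hsum, ← Finset.sum_fiberwise_of_maps_to
        (fun a ha => Finset.mem_image_of_mem rep ha) (fun a => PowerSeries.C (r a) * X a)]
      refine Finset.sum_congr rfl fun ρ _ => ?_
      show ii K (∑ a ∈ S.filter (fun a => rep a = ρ), _) * X ρ = _
      rw [map_sum, Finset.sum_mul]
      refine Finset.sum_congr rfl fun a ha => ?_
      have hρ : rep a = ρ := (Finset.mem_filter.1 ha).2
      rw [ii_single hEE, ← hρ, map_mul, mul_assoc (PowerSeries.C (r a)), ← hXe, mul_assoc, ← hX,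
        sub_add_cancel]
  intro a ha
  have h1 := hF (rep a) (Finset.mem_image_of_mem rep ha)
  have h2 : (F (rep a)).coeff (τ a) = Polynomial.C (r a * x a) := by
    show (∑ b ∈ S.filter (fun b => rep b = rep a), (AddMonoidAlgebra.single (τ b)
      (Polynomial.C (r b * x b)) : EE K)).coeff (τ a) = _
    rw [AddMonoidAlgebra.coeff_sum, Finsupp.finsetSum_apply, Finset.sum_eq_single a]
    · rw [AddMonoidAlgebra.coeff_single, Finsupp.single_eq_same]
    · intro b hb hba
      rw [AddMonoidAlgebra.coeff_single, Finsupp.single_apply, if_neg]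
      intro h
      have hb' := (Finset.mem_filter.1 hb).2
      have h3 : T b = T a := by
        have e1 := hτ b
        have e2 := hτ a
        rw [hb', h, ← e2] at e1
        exact sub_left_injective e1
      apply hT0 (b - a) (sub_ne_zero.2 hba)
      rw [hTsub, h3, sub_self, map_zero, map_zero]
    · intro h
      exact absurd (show a ∈ S.filter (fun b => rep b = rep a) from
        Finset.mem_filter.2 ⟨ha, rfl⟩) h
  rw [h1] at h2
  have h3 : Polynomial.C (r a * x a) = 0 := by
    rw [← h2]
    rfl
  have h4 : r a * x a = 0 := Polynomial.C_eq_zero.1 h3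
  exact (mul_eq_zero.1 h4).resolve_right (hX0 _)

end Pool.Agent.H77.ZW
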